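import Pool.Agent.TH997.US.Stm

/-! # Piece D0 of the universal Skolem set project (helper94) -/

set_option autoImplicit false

namespace Pool.Agent.Helper91K1.US

open Polynomial Finset Pool.Agent.H692R2.USS Pool.Agent.TH997.US
open scoped Classical

lemma per_iter (p d : ℕ) (v : ℕ → ℤ) (h : ∀ n, (p : ℤ) ∣ v (n + d) - v n) (a e : ℕ) :
    (p : ℤ) ∣ v (a + d * e) - v a := by
  induction e with
  | zero => simp
  | succ e ih =>
    have h1 := h (a + d * e)
    have h2 : a + d * (e + 1) = a + d * e + d := by ring
    rw [h2]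
    have h3 := dvd_add h1 ih
    rwa [sub_add_sub_cancel] at h3

lemma per_modEq (p d : ℕ) (v : ℕ → ℤ) (h : ∀ n, (p : ℤ) ∣ v (n + d) - v n) (a b : ℕ)
    (hab : a ≡ b [MOD d]) : (p : ℤ) ∣ v a - v b := by
  rcases le_total a b with hle | hle
  · obtain ⟨e, he⟩ := (Nat.modEq_iff_dvd' hle).1 hab
    have : b = a + d * e := by omega
    rw [this]
    have h1 := per_iter p d v h a e
    rw [← dvd_neg]
    simpa using h1
  · obtain ⟨e, he⟩ := (Nat.modEq_iff_dvd' hle).1 hab.symm
    have : a = b + d * e := by omega
    rw [this]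
    exact per_iter p d v h b e

lemma triangular (m : ℕ) (x : ℕ → ℤ)
    (h : ∀ n : ℕ, ∑ j ∈ Finset.range m, (n.choose j : ℤ) * x j = 0) : ∀ j < m, x j = 0 := by
  intro j
  induction j using Nat.strong_induction_on with
  | _ j ih =>
    intro hj
    have h1 := h j
    rw [Finset.sum_eq_single j] at h1
    · simpa using h1
    · intro i hi hne
      rcases lt_or_gt_of_ne hne with hlt | hgt
      · rw [ih i hlt (by omega), mul_zero]
      · rw [Nat.choose_eq_zero_of_lt hgt]
        simp
    · intro hcon
      exact absurd (Finset.mem_range.2 hj) hcon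

theorem t_D0 : D0 := by
  intro hC9 hDa hDb hDc u k g s t q w rr m D p0 T v i n hCD hgood hun j hj
  obtain ⟨B, hBk, hB⟩ := hgood
  have hk1 : 1 ≤ k := le_trans hCD.T1 hCD.Tk
  have key : ∀ b ∈ B, (∀ j < m, v j b = 0) ∧ b % T = n % T := by
    intro b hb
    obtain ⟨p, _, hp, hsplit, hlog, hbn, hgen⟩ := hB b hb
    have hlogp : Nat.log 2 p < p := Nat.log_lt_self 2 hp.pos.ne'
    have hkp : k < p := by
      have h1 : k * 1 ≤ 4 * k * (k + 1) * (b + 1) := by
        have : 4 * k * (k + 1) * (b + 1) = k * (4 * (k + 1) * (b + 1)) := by ring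
        rw [this]
        exact Nat.mul_le_mul_left k (Nat.one_le_iff_ne_zero.mpr (by positivity))
      omega
    have hper : ∀ j < m, (p : ℤ) ∣ v j b - v j n := by
      intro j hj
      exact per_modEq p (p - 1) (v j)
        (hDa k p g s t rr (v j) hp hsplit hkp hCD.monic hCD.deg hCD.coeff hCD.coeff0 hCD.bez
          hCD.rr0 hCD.rrk (hCD.ann j hj)) b n hbn
    obtain ⟨f, hf1, hf2, hf3⟩ := hDc m (fun j => v j b)
    have hf0 : f = 0 := by
      by_contra hne
      refine hgen f hne ?_ ?_ ?_
      · have := hCD.mle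
        omega
      · intro i'
        refine lt_of_le_of_lt (hf3 i') ?_
        have h1 : (m : ℤ) * ∑ j ∈ Finset.range m, (m.factorial : ℤ) * |v j b| <
            m * 2 ^ (k * (b + 1)) := by
          rw [Finset.mul_sum]
          have h2 : ∑ j ∈ Finset.range m, (m : ℤ) * ((m.factorial : ℤ) * |v j b|) <
              ∑ j ∈ Finset.range m, (2 : ℤ) ^ (k * (b + 1)) := by
            apply Finset.sum_lt_sum_of_nonempty
            · exact ⟨0, Finset.mem_range.2 hCD.m1⟩
            · intro j hj
              have := hCD.gro j (Finset.mem_range.1 hj) b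
              linarith [this, mul_assoc (m : ℤ) (m.factorial : ℤ) |v j b|]
          rw [Finset.sum_const, Finset.card_range, nsmul_eq_mul] at h2
          exact h2
        have hm0 : (0 : ℤ) < m := by exact_mod_cast hCD.m1
        have h3 : ∑ j ∈ Finset.range m, (m.factorial : ℤ) * |v j b| < 2 ^ (k * (b + 1)) :=
          lt_of_mul_lt_mul_left h1 hm0.le
        refine lt_of_lt_of_le h3 ?_
        apply pow_le_pow_right₀ (by norm_num)
        rw [Nat.le_div_iff_mul_le (by positivity)]
        calc k * (b + 1) * (4 * (k + 1)) = 4 * k * (k + 1) * (b + 1) := by ring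
          _ ≤ Nat.log 2 p := hlog
      · rw [hf2 n]
        apply Dvd.dvd.mul_left
        have h1 : ∑ j ∈ Finset.range m, (n.choose j : ℤ) * v j n = 0 := by
          rw [← hCD.dec n, hun, mul_zero]
        have h2 : (p : ℤ) ∣ ∑ j ∈ Finset.range m, (n.choose j : ℤ) * v j b -
            ∑ j ∈ Finset.range m, (n.choose j : ℤ) * v j n := by
          rw [← Finset.sum_sub_distrib]
          apply Finset.dvd_sum
          intro j hj
          rw [← mul_sub]
          exact (hper j (Finset.mem_range.1 hj)).mul_left _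
        rw [h1, sub_zero] at h2
        exact h2
    constructor
    · apply triangular m (fun j => v j b)
      intro n'
      have h1 := hf2 n'
      rw [hf0, eval_zero] at h1
      have h2 : (m.factorial : ℤ) ≠ 0 := by exact_mod_cast m.factorial_ne_zero
      rcases mul_eq_zero.1 h1.symm with h3 | h3
      · exact absurd h3 h2
      · exact h3
    · exact Nat.ModEq.of_dvd (hDb k p T hp hsplit hkp hCD.T1 hCD.Tk) hbn
  -- the values at the classes
  set L : Finset ℕ := B.image (fun b => b / T) with hL
  have hbT : ∀ b ∈ B, n % T + T * (b / T) = b := by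
    intro b hb
    rw [← (key b hb).2]
    exact Nat.mod_add_div b T
  have hLk : k ≤ L.card := by
    rw [hL, Finset.card_image_of_injOn]
    · exact hBk
    · intro a ha b hb hab
      have h1 := hbT a ha
      have h2 := hbT b hb
      simp only at hab
      rw [← h1, ← h2, hab]
  have h0 : ∀ l ∈ L, v j (n % T + T * l) = 0 := by
    intro l hl
    rw [hL, Finset.mem_image] at hl
    obtain ⟨b, hb, rfl⟩ := hl
    rw [hbT b hb]
    exact (key b hb).1 j hj
  exact hC9 g q w p0 T (v j) (n % T) k L hCD.monic hCD.p0p hCD.p03 hCD.T1 hCD.per (hCD.ann j hj)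
    hLk h0

end Pool.Agent.Helper91K1.US
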